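import Pool.Agent.Lib.MP_975a4b_lc.Comp

/-! A compact space with a dense open line whose two ends share a limit point. -/

set_option autoImplicit false

namespace Pool.Agent.Lib.MP_975a4b_lc

open Filter Topology Set

/-- A dense open line whose two ends share a limit point. -/
structure Line (X : Type) [TopologicalSpace X] where
  hh : ℝ → X
  z : X
  cont : Continuous hh
  inj : Function.Injective hh
  op : ∀ {I : Set ℝ}, IsOpen I → IsOpen (hh '' I)
  zl : ∀ a, z ∈ closure (hh '' Iic a)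
  zr : ∀ a, z ∈ closure (hh '' Ici a)
  dense : DenseRange hh

variable {X : Type} [TopologicalSpace X] [T2Space X]

/-- The cut at position `a`. -/
noncomputable def Line.cutAt (L : Line X) (a : ℝ) : Cut X where
  C := closure (L.hh '' Iic a) ∪ closure (L.hh '' Ici (a + 3))
  M := L.hh '' Icc (a + 1) (a + 2)
  P := L.hh '' Ioo (a - 1) (a + 1)
  Q := L.hh '' Ioo (a + 2) (a + 4)
  p := L.hh a
  q := L.hh (a + 3)
  hC := IsPreconnected.union L.z (L.zl a) (L.zr _)
    (isPreconnected_Iic.image _ L.cont.continuousOn).closure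
    (isPreconnected_Ici.image _ L.cont.continuousOn).closure
  hCc := isClosed_closure.union isClosed_closure
  hM := (isCompact_Icc.image L.cont).isClosed
  hMC := by
    have ho := L.op (isOpen_Ioo (a := a) (b := a + 3))
    refine Disjoint.mono_left (image_mono (Icc_subset_Ioo (by linarith) (by linarith) :
      Icc (a + 1) (a + 2) ⊆ Ioo a (a + 3))) (disjoint_union_right.mpr ⟨?_, ?_⟩)
    · refine Disjoint.closure_right (disjoint_image_of_injective L.inj ?_) ho
      exact disjoint_left.mpr fun t h1 h2 => absurd h1.1 (not_lt.mpr h2)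
    · refine Disjoint.closure_right (disjoint_image_of_injective L.inj ?_) ho
      exact disjoint_left.mpr fun t h1 h2 => absurd h1.2 (not_lt.mpr h2)
  hP := L.op isOpen_Ioo
  hQ := L.op isOpen_Ioo
  hp := ⟨a, ⟨by linarith, by linarith⟩, rfl⟩
  hq := ⟨a + 3, ⟨by linarith, by linarith⟩, rfl⟩
  hpC := Or.inl (subset_closure ⟨a, le_refl a, rfl⟩)
  hqC := Or.inr (subset_closure ⟨a + 3, le_refl (a + 3), rfl⟩)

lemma Line.cuts_at (L : Line X) {B : Set X} (hB : IsOpen B) {t : ℝ} (ht : L.hh t ∈ B) {a : ℝ}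
    (ha : t ≤ a - 1 ∨ a + 4 ≤ t) : (L.cutAt a).Cuts B := by
  have hm : ∀ {I : Set ℝ} {t : ℝ}, L.hh t ∈ L.hh '' I ↔ t ∈ I := L.inj.mem_set_image
  obtain ⟨η, hη, hball⟩ := Metric.isOpen_iff.mp (hB.preimage L.cont) t ht
  have hB' : ∀ s, t - η < s → s < t + η → L.hh s ∈ B := fun s h1 h2 =>
    hball (by rw [Metric.mem_ball, Real.dist_eq, abs_lt]; constructor <;> linarith)
  rcases ha with ha | ha
  · refine ⟨L.hh '' Icc t (a + 1), (L.hh '' Ioo (t - η) (a + 2))ᶜ,
      (isCompact_Icc.image L.cont).isClosed, (L.op isOpen_Ioo).isClosed_compl,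
      disjoint_compl_right_iff_subset.mpr (image_mono (Icc_subset_Ioo (by linarith) (by linarith))),
      image_mono (Ioo_subset_Icc_self.trans (Icc_subset_Icc ha le_rfl)), ?_, fun x => ?_⟩
    · rintro _ ⟨s, hs, rfl⟩ h
      exact absurd (hm.mp h).2 (not_lt.mpr hs.1.le)
    · by_cases hx : x ∈ L.hh '' Ioo (t - η) (a + 2)
      · obtain ⟨s, hs, rfl⟩ := hx
        rcases le_total s t with h | h
        · exact Or.inl (hB' s hs.1 (by linarith))
        rcases le_total s (a + 1) with h' | h'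
        · exact Or.inr (Or.inr (Or.inl ⟨s, ⟨h, h'⟩, rfl⟩))
        · exact Or.inr (Or.inl ⟨s, ⟨h', hs.2.le⟩, rfl⟩)
      · exact Or.inr (Or.inr (Or.inr hx))
  · refine ⟨(L.hh '' Ioo (a + 1) (t + η))ᶜ, L.hh '' Icc (a + 2) t,
      (L.op isOpen_Ioo).isClosed_compl, (isCompact_Icc.image L.cont).isClosed,
      disjoint_compl_left_iff_subset.mpr (image_mono (Icc_subset_Ioo (by linarith) (by linarith))),
      ?_, image_mono (Ioo_subset_Icc_self.trans (Icc_subset_Icc le_rfl ha)), fun x => ?_⟩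
    · rintro _ ⟨s, hs, rfl⟩ h
      exact absurd (hm.mp h).1 (not_lt.mpr hs.2.le)
    · by_cases hx : x ∈ L.hh '' Ioo (a + 1) (t + η)
      · obtain ⟨s, hs, rfl⟩ := hx
        rcases le_total t s with h | h
        · exact Or.inl (hB' s (by linarith) hs.2)
        rcases le_total (a + 2) s with h' | h'
        · exact Or.inr (Or.inr (Or.inr ⟨s, ⟨h', h⟩, rfl⟩))
        · exact Or.inr (Or.inl ⟨s, ⟨hs.1.le, h'⟩, rfl⟩)
      · exact Or.inr (Or.inr (Or.inl hx))

theorem Line.strong [CompactSpace X] (L : Line X) : StrongComputableType X := by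
  refine strong_of_cuts (L.cutAt 0) (L.cutAt 10) fun B hB hne => ?_
  obtain ⟨t, ht⟩ := L.dense.exists_mem_open hB hne
  rcases le_total t 4 with h | h
  · exact Or.inr (L.cuts_at hB ht (Or.inl (by linarith)))
  · exact Or.inl (L.cuts_at hB ht (Or.inr (by linarith)))

end Pool.Agent.Lib.MP_975a4b_lc
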