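import Pool.Agent.Lib.MP_975a4b_lc.Un.Path
import Pool.Agent.Lib.MP_975a4b_lc.Un.Cut

/-! The universal space with a dense line added. -/

set_option autoImplicit false

namespace Pool.Agent.Lib.MP_975a4b_lc

open Filter Topology Set TopologicalSpace

theorem exists_emb {n : ℕ} (K : Type) [TopologicalSpace K] [MetrizableSpace K] [SeparableSpace K]
    (h : Shr K n univ) : ∃ e : K → ZZ n, IsEmbedding e := by
  let _ : MetricSpace K := metrizableSpaceMetric K
  obtain ⟨g, hg⟩ := Metric.PiNatEmbed.exists_embedding_to_hilbert_cube (X := K)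
  obtain ⟨G, h1, h2⟩ := exists_lift h hg.continuous
  refine ⟨fun y => ⟨G y, (h2 y).2⟩, IsEmbedding.of_comp (h1.subtype_mk _)
    ((cont_amb 0).comp continuous_subtype_val) ?_⟩
  have h3 : (fun y => G y 0) = g := funext fun y => (h2 y).1
  rw [← h3] at hg
  exact hg

theorem universal {n : ℕ} (hn : 1 ≤ n) : ∃ X : Set Amb, IsClosed X ∧ X ⊆ ZZ n ∧
    ∃ (L : Line X) (e : ZZ n → X), IsEmbedding e ∧ L.hh 0 ∉ range e := by
  have hR : Shr ℝ n univ := shr_real.mono le_rfl hn
  have : CompactSpace (ZZ n) := isCompact_iff_compactSpace.1 (isClosed_ZZ n).isCompact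
  have : Nonempty (ZZ n) := ⟨(exists_emb ℝ hR).choose 0⟩
  let u : ℤ → Amb := fun j => (denseSeq (ZZ n) j.natAbs.unpair.1).1
  let p : ZZ n → Cube := fun z => pack 0 (bb 0) z.1
  have hp : Continuous p := continuous_pack.comp
    (continuous_const.prodMk (continuous_const.prodMk continuous_subtype_val))
  let Y : Set Cube := range p ∪ range (lin u)
  let pY : ZZ n → Y := fun z => ⟨p z, Or.inl ⟨z, rfl⟩⟩
  let lY : ℝ → Y := fun t => ⟨lin u t, Or.inr ⟨t, rfl⟩⟩
  have hpY : IsClosedEmbedding pY := (hp.subtype_mk _).isClosedEmbedding fun a b h =>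
    Subtype.ext (pack_inj (congrArg Subtype.val h))
  have hlc : Continuous lY := (continuous_lin u).subtype_mk _
  have hlY : IsInducing lY := IsInducing.of_comp hlc continuous_subtype_val (isInducing_lin u)
  have hcase : ∀ y : Y, (∃ z, pY z = y) ∨ ∃ t, lY t = y := by
    rintro ⟨_, ⟨z, rfl⟩ | ⟨t, rfl⟩⟩
    · exact Or.inl ⟨z, rfl⟩
    · exact Or.inr ⟨t, rfl⟩
  have hY : Shr Y n univ := Shr.of_nbhd
    (Shr.of_inducing hpY.isInducing hpY.isClosed_range le_rfl
      (shr_of_dim (dim_of_subset (isClosed_ZZ n) le_rfl)))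
    fun F hF hd => Shr.of_inducing hlY hF
      (fun y hy => (hcase y).resolve_left fun h => disjoint_left.1 hd hy h) hR
  obtain ⟨G, hG, hG'⟩ := exists_lift hY continuous_subtype_val
  let X : Set Amb := closure (range G)
  let GX : Y → X := fun y => ⟨G y, subset_closure ⟨y, rfl⟩⟩
  have hGX : Continuous GX := hG.subtype_mk _
  let hh : ℝ → X := fun t => GX (lY t)
  have hhc : Continuous hh := hGX.comp hlc
  have h0 : ∀ t, (hh t).1 0 = lin u t := fun t => (hG' _).1
  have h1 : ∀ z, (GX (pY z)).1 0 = p z := fun z => (hG' _).1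
  have hx : ∀ x : X, x.1 0 0 ≠ 0 → ∃ t, hh t = x := fun x hx => by
    have ha : 0 < (x.1 0 0 : ℝ) := lt_of_le_of_ne (x.1 0 0).2.1 fun h => hx (Subtype.ext h.symm)
    obtain ⟨α, hα⟩ : ∃ α : ℝ, α = ((x.1 0 0 : unitInterval) : ℝ) := ⟨_, rfl⟩
    rw [← hα] at ha
    have hc : IsClosed ({w : Amb | (w 0 0 : ℝ) ≤ α / 2} ∪
        (fun t => G (lY t)) '' Icc (-(2 / α + 1)) (2 / α + 1)) :=
      (isClosed_le (continuous_subtype_val.comp (cont_amb' 0 0)) continuous_const).union
        (isCompact_Icc.image (hG.comp hlc)).isClosed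
    refine (closure_minimal (s := range G) ?_ hc x.2).elim (fun h => ?_)
      fun ⟨t, _, ht⟩ => ⟨t, Subtype.ext ht⟩
    swap
    · have h2 : ((x.1 0 0 : unitInterval) : ℝ) ≤ α / 2 := h
      linarith
    rintro _ ⟨y, rfl⟩
    rcases hcase y with ⟨z, rfl⟩ | ⟨t, rfl⟩
    · left
      change ((G (pY z) 0 0 : unitInterval) : ℝ) ≤ α / 2
      rw [(hG' _).1]
      change (0 : ℝ) ≤ α / 2
      positivity
    · by_cases ht : |t| ≤ 2 / α + 1
      · exact Or.inr ⟨t, abs_le.1 ht, rfl⟩
      · left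
        change ((G (lY t) 0 0 : unitInterval) : ℝ) ≤ α / 2
        rw [(hG' _).1]
        change 1 / (1 + t ^ 2) ≤ α / 2
        have h2 : 0 < 2 / α := by positivity
        have h3 : 2 / α ≤ 1 + t ^ 2 := by
          rw [← sq_abs]
          nlinarith [not_le.1 ht]
        rw [div_le_iff₀ ha] at h3
        rw [div_le_div_iff₀ (by positivity) two_pos]
        linarith
  have hlim : ∀ z : ZZ n, ∃ k : ℕ → ℕ, (∀ m, m ≤ k m) ∧
      Tendsto (fun m => hh ((k m : ℤ) + 1 / 2)) atTop (𝓝 (GX (pY z))) ∧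
      Tendsto (fun m => hh ((-k m : ℤ) + 1 / 2)) atTop (𝓝 (GX (pY z))) := fun z => by
    obtain ⟨v, hv, hl⟩ := mem_closure_iff_seq_limit.1 (denseRange_denseSeq (ZZ n) z)
    choose a ha using hv
    have hk : Tendsto (fun m => ((Nat.pair (a m) m : ℕ) : ℝ)) atTop atTop :=
      tendsto_natCast_atTop_atTop.comp (tendsto_atTop_mono (fun m => Nat.right_le_pair _ _)
        tendsto_id)
    have hl' := tendsto_subtype_rng.1 hl
    refine ⟨fun m => Nat.pair (a m) m, fun m => Nat.right_le_pair _ _,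
      (hGX.tendsto _).comp (tendsto_subtype_rng.2 (tendsto_lin ?_ ?_)),
      (hGX.tendsto _).comp (tendsto_subtype_rng.2 (tendsto_lin ?_ ?_))⟩
    · exact (tendsto_pow_atTop two_ne_zero).comp (tendsto_atTop_add_const_right _ (1 / 2) hk)
    · simpa [u, ha] using hl'
    · refine ((tendsto_pow_atTop two_ne_zero).comp
        (tendsto_atTop_add_const_right _ (-(1 / 2)) hk)).congr fun m => ?_
      simp only [Function.comp]
      push_cast
      ring
    · simpa [u, ha] using hl'
  have hr : ∀ z a, GX (pY z) ∈ closure (hh '' Ici a) := fun z a => by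
    obtain ⟨k, k1, k2, -⟩ := hlim z
    refine mem_closure_of_tendsto k2 ?_
    filter_upwards [eventually_ge_atTop ⌈a⌉₊] with m hm
    have h2 : (⌈a⌉₊ : ℝ) ≤ k m := by exact_mod_cast hm.trans (k1 m)
    refine ⟨_, ?_, rfl⟩
    simp only [mem_Ici]
    push_cast
    linarith [Nat.le_ceil a]
  have hl : ∀ z a, GX (pY z) ∈ closure (hh '' Iic a) := fun z a => by
    obtain ⟨k, k1, -, k2⟩ := hlim z
    refine mem_closure_of_tendsto k2 ?_
    filter_upwards [eventually_ge_atTop ⌈1 - a⌉₊] with m hm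
    have h2 : (⌈1 - a⌉₊ : ℝ) ≤ k m := by exact_mod_cast hm.trans (k1 m)
    refine ⟨_, ?_, rfl⟩
    simp only [mem_Iic]
    push_cast
    linarith [Nat.le_ceil (1 - a)]
  have htau : ∀ t, tau ((hh t).1 0) = t := fun t => by rw [h0, tau_lin]
  have hc0 : Continuous fun x : X => x.1 0 := (cont_amb 0).comp continuous_subtype_val
  refine ⟨X, isClosed_closure, closure_minimal (by rintro _ ⟨y, rfl⟩; exact (hG' y).2)
    (isClosed_ZZ n), ⟨hh, GX (pY (Classical.arbitrary _)), hhc,
      Function.LeftInverse.injective (g := fun x : X => tau (x.1 0)) htau, fun {I} hI => ?_, hl _, hr _, fun x => ?_⟩,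
    fun z => GX (pY z), ((hGX.comp hpY.continuous).isClosedEmbedding fun a b h => ?_).isEmbedding,
    ?_⟩
  · have h2 := (continuousOn_tau.isOpen_inter_preimage
      (isOpen_ne_fun (continuous_apply 0) continuous_const) hI).preimage hc0
    convert h2 using 1
    ext x
    constructor
    · rintro ⟨t, ht, rfl⟩
      refine ⟨?_, ?_⟩
      · change (hh t).1 0 0 ≠ 0
        rw [h0]
        exact lin_ne u t
      · change tau ((hh t).1 0) ∈ I
        rwa [htau]
    · rintro ⟨h3, h4⟩
      obtain ⟨t, rfl⟩ := hx x h3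
      refine ⟨t, ?_, rfl⟩
      rw [← htau t]
      exact h4
  · have h2 : x ∈ closure (range GX) := by
      rw [IsInducing.subtypeVal.closure_eq_preimage_closure_image, ← range_comp]
      exact x.2
    refine closure_minimal ?_ isClosed_closure h2
    rintro _ ⟨y, rfl⟩
    rcases hcase y with ⟨z, rfl⟩ | ⟨t, rfl⟩
    · exact closure_mono (image_subset_range _ _) (hr z 0)
    · exact subset_closure ⟨t, rfl⟩
  · exact Subtype.ext (pack_inj ((h1 a).symm.trans
      ((congrArg (fun x : X => x.1 0) h).trans (h1 b))))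
  · rintro ⟨z, hz⟩
    have h2 := (h1 z).symm.trans ((congrArg (fun x : X => x.1 0) hz).trans (h0 0))
    exact lin_ne u 0 (congrFun h2 0).symm

end Pool.Agent.Lib.MP_975a4b_lc
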