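import Pool.Agent.Lib.MP_975a4b_lc.Un.Uni

/-! A line in the Hilbert cube that visits a given sequence at both ends. -/

set_option autoImplicit false

namespace Pool.Agent.Lib.MP_975a4b_lc

open Filter Topology Set

/-- First coordinate of the line. -/
noncomputable def aa (t : ℝ) : unitInterval :=
  ⟨1 / (1 + t ^ 2), by positivity, div_le_one_of_le₀ (by nlinarith [sq_nonneg t]) (by positivity)⟩

lemma abs_ta (t : ℝ) : |t / (1 + t ^ 2)| ≤ 1 := by
  rw [abs_div, abs_of_pos (show 0 < 1 + t ^ 2 by positivity)]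
  exact div_le_one_of_le₀ (abs_le.2 ⟨by nlinarith [sq_nonneg (t + 1)],
    by nlinarith [sq_nonneg (t - 1)]⟩) (by positivity)

/-- Second coordinate of the line. -/
noncomputable def bb (t : ℝ) : unitInterval :=
  ⟨(1 + t / (1 + t ^ 2)) / 2, by linarith [(abs_le.1 (abs_ta t)).1],
    by linarith [(abs_le.1 (abs_ta t)).2]⟩

lemma continuous_aa : Continuous aa :=
  (continuous_const.div (by fun_prop) fun t => by positivity).subtype_mk _

lemma continuous_bb : Continuous bb :=
  ((continuous_const.add (continuous_id.div (by fun_prop) fun t => by positivity)).div_const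
    2).subtype_mk _

lemma tendsto_aa {t : ℕ → ℝ} (ht : Tendsto (fun m => t m ^ 2) atTop atTop) :
    Tendsto (fun m => aa (t m)) atTop (𝓝 0) := by
  rw [tendsto_subtype_rng]
  exact (tendsto_atTop_add_const_left _ 1 ht).const_div_atTop 1

lemma tendsto_bb {t : ℕ → ℝ} (ht : Tendsto (fun m => t m ^ 2) atTop atTop) :
    Tendsto (fun m => bb (t m)) atTop (𝓝 (bb 0)) := by
  rw [tendsto_subtype_rng]
  have h1 : Tendsto (fun m => √(1 / (1 + t m ^ 2))) atTop (𝓝 0) := by
    simpa using ((tendsto_atTop_add_const_left _ 1 ht).const_div_atTop 1).sqrt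
  have h2 : Tendsto (fun m => t m / (1 + t m ^ 2)) atTop (𝓝 0) := by
    refine squeeze_zero_norm (fun m => Real.abs_le_sqrt ?_) h1
    have h3 : 0 < 1 + t m ^ 2 := by positivity
    rw [div_pow, div_le_div_iff₀ (by positivity) h3]
    nlinarith
  simpa [bb] using (h2.const_add 1).div_const 2

/-- Two numbers and a point of the ambient space as one point of the cube. -/
def pack (a b : unitInterval) (z : Amb) : Cube
  | 0 => a
  | 1 => b
  | i + 2 => z i.unpair.1 i.unpair.2

lemma continuous_pack :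
    Continuous fun p : unitInterval × unitInterval × Amb => pack p.1 p.2.1 p.2.2 := by
  refine continuous_pi fun i => ?_
  match i with
  | 0 => exact continuous_fst
  | 1 => exact continuous_fst.comp continuous_snd
  | i + 2 => exact (cont_amb' _ _).comp (continuous_snd.comp continuous_snd)

lemma pack_inj {a b : unitInterval} {z w : Amb} (h : pack a b z = pack a b w) : z = w := by
  funext j i
  simpa [pack] using congrFun h (Nat.pair j i + 2)

lemma continuous_floor_mul {φ : ℤ → ℝ} (h0 : ∀ j, 0 ≤ φ j) (h1 : ∀ j, φ j ≤ 1) :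
    Continuous fun t : ℝ => Real.sin (Real.pi * t) ^ 2 * φ ⌊t⌋ := by
  have hs : Continuous fun t : ℝ => Real.sin (Real.pi * t) ^ 2 := by fun_prop
  refine continuous_iff_continuousAt.2 fun t => ?_
  rcases (Int.floor_le t).eq_or_lt with h | h
  · have h2 : Real.sin (Real.pi * t) ^ 2 = 0 := by
      rw [← h, mul_comm, Real.sin_int_mul_pi]
      simp
    have h3 := hs.tendsto t
    rw [h2] at h3
    unfold ContinuousAt
    simp only [h2, zero_mul]
    exact squeeze_zero (fun s => mul_nonneg (sq_nonneg _) (h0 _))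
      (fun s => mul_le_of_le_one_right (sq_nonneg _) (h1 _)) h3
  · refine (hs.mul (continuous_const (y := φ ⌊t⌋))).continuousAt.congr ?_
    filter_upwards [Ioo_mem_nhds h (Int.lt_floor_add_one t)] with s hs'
    rw [Int.floor_eq_iff.2 ⟨hs'.1.le, hs'.2⟩]
    rfl

/-- The path through the points `u j`. -/
noncomputable def gam (u : ℤ → Amb) (t : ℝ) : Amb := fun j i =>
  ⟨Real.sin (Real.pi * t) ^ 2 * u ⌊t⌋ j i,
    unitInterval.mul_mem ⟨sq_nonneg _, Real.sin_sq_le_one _⟩ (u ⌊t⌋ j i).2⟩

lemma continuous_gam (u : ℤ → Amb) : Continuous (gam u) :=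
  cont_to_amb fun j => continuous_pi fun i => (continuous_floor_mul (φ := fun r => u r j i)
    (fun r => (u r j i).2.1) fun r => (u r j i).2.2).subtype_mk _

lemma gam_half (u : ℤ → Amb) (r : ℤ) : gam u (r + 1 / 2) = u r := by
  funext j i
  refine Subtype.ext ?_
  have h1 : ⌊(r : ℝ) + 1 / 2⌋ = r := Int.floor_eq_iff.2 ⟨by linarith, by linarith⟩
  have h2 : Real.sin (Real.pi * (r + 1 / 2)) ^ 2 = 1 := by
    rw [show Real.pi * (r + 1 / 2) = r * Real.pi + Real.pi / 2 by ring, Real.sin_add_pi_div_two,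
      Real.cos_sq', Real.sin_int_mul_pi]
    simp
  simp only [gam, h1, h2, one_mul]

/-- The line. -/
noncomputable def lin (u : ℤ → Amb) (t : ℝ) : Cube := pack (aa t) (bb t) (gam u t)

lemma continuous_lin (u : ℤ → Amb) : Continuous (lin u) :=
  continuous_pack.comp (continuous_aa.prodMk (continuous_bb.prodMk (continuous_gam u)))

/-- The parameter of a point of the line. -/
noncomputable def tau (w : Cube) : ℝ := (2 * (w 1 : ℝ) - 1) / w 0

lemma tau_lin (u : ℤ → Amb) (t : ℝ) : tau (lin u t) = t := by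
  simp only [tau, lin, pack, aa, bb]
  field_simp
  ring

lemma lin_ne (u : ℤ → Amb) (t : ℝ) : lin u t 0 ≠ 0 := fun h => by
  have h1 : 1 / (1 + t ^ 2) = 0 := congrArg Subtype.val h
  exact absurd h1 (by positivity)

lemma continuousOn_tau : ContinuousOn tau {w | w 0 ≠ 0} :=
  ContinuousOn.div (by fun_prop) (by fun_prop) fun w hw h => hw (Subtype.ext h)

lemma isInducing_lin (u : ℤ → Amb) : IsInducing (lin u) := by
  have h : Function.LeftInverse ({w : Cube | w 0 ≠ 0}.domRestrict tau)
      fun t => ⟨lin u t, lin_ne u t⟩ := tau_lin u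
  exact IsInducing.subtypeVal.comp (h.isEmbedding continuousOn_tau.domRestrict
    ((continuous_lin u).subtype_mk _)).isInducing

lemma tendsto_lin {u : ℤ → Amb} {r : ℕ → ℤ} {z : Amb}
    (hr : Tendsto (fun m => ((r m : ℝ) + 1 / 2) ^ 2) atTop atTop)
    (hz : Tendsto (fun m => u (r m)) atTop (𝓝 z)) :
    Tendsto (fun m => lin u (r m + 1 / 2)) atTop (𝓝 (pack 0 (bb 0) z)) := by
  simp only [lin, gam_half]
  exact (continuous_pack.tendsto (0, bb 0, z)).comp
    ((tendsto_aa hr).prodMk_nhds ((tendsto_bb hr).prodMk_nhds hz))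

end Pool.Agent.Lib.MP_975a4b_lc
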