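import Pool.Agent.Lib.MP_975a4b_lc.Comp

/-! Shrinking finite open covers to covers of bounded order. -/

set_option autoImplicit false

namespace Pool.Agent.Lib.MP_975a4b_lc

open Filter Topology Set

/-- Every finite indexed open cover of `Y` shrinks to one of order at most `n + 1` on `F`. -/
def Shr (Y : Type) [TopologicalSpace Y] (n : ℕ) (F : Set Y) : Prop :=
  ∀ (m : ℕ) (U : Fin m → Set Y), (∀ i, IsOpen (U i)) → (∀ y, ∃ i, y ∈ U i) →
    ∃ V : Fin m → Set Y, (∀ i, IsOpen (V i) ∧ V i ⊆ U i) ∧ (∀ y, ∃ i, y ∈ V i) ∧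
      ∀ y ∈ F, {i | y ∈ V i}.ncard ≤ n + 1

variable {Y K : Type} [TopologicalSpace Y] [TopologicalSpace K] {n : ℕ}

lemma shr_of_dim (h : CovDimLE K n) : Shr K n univ := by
  intro m U hU hc
  obtain ⟨𝓥, hf, h1, h2, h3⟩ := h (range U) (finite_range U) (by rintro _ ⟨i, rfl⟩; exact hU i)
    (fun x => by obtain ⟨i, hi⟩ := hc x; exact ⟨_, ⟨i, rfl⟩, hi⟩)
  have h4 : ∀ V : 𝓥, ∃ i, V.1 ⊆ U i := fun V => by
    obtain ⟨-, _, ⟨i, rfl⟩, hi⟩ := h1 V.1 V.2
    exact ⟨i, hi⟩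
  choose ι hι using h4
  refine ⟨fun i => ⋃ V : 𝓥, ⋃ (_ : ι V = i), V.1, fun i => ⟨isOpen_iUnion fun V =>
    isOpen_iUnion fun _ => (h1 V.1 V.2).1, iUnion₂_subset fun V hV => hV ▸ hι V⟩, fun y => ?_,
    fun y _ => ?_⟩
  · obtain ⟨V, hV, hy⟩ := h2 y
    exact ⟨ι ⟨V, hV⟩, mem_iUnion₂.2 ⟨⟨V, hV⟩, rfl, hy⟩⟩
  · have := hf.to_subtype
    have e1 : {i | y ∈ ⋃ V : 𝓥, ⋃ (_ : ι V = i), V.1} ⊆ ι '' {V : 𝓥 | y ∈ V.1} := fun i hi => by
      obtain ⟨V, hV, hy⟩ := mem_iUnion₂.1 hi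
      exact ⟨V, hy, hV⟩
    refine (ncard_le_ncard e1 (toFinite _)).trans ((ncard_image_le (toFinite _)).trans ?_)
    refine le_trans (le_of_eq ?_) (h3 y)
    rw [← ncard_image_of_injective _ Subtype.val_injective]
    congr 1
    ext V
    simp [and_comm]

lemma Shr.mono {F F' : Set Y} {n' : ℕ} (h : Shr Y n F) (hF : F' ⊆ F) (hn : n ≤ n') :
    Shr Y n' F' := fun m U hU hc => by
  obtain ⟨V, h1, h2, h3⟩ := h m U hU hc
  exact ⟨V, h1, h2, fun y hy => (h3 y (hF hy)).trans (by omega)⟩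

lemma Shr.union {F F' : Set Y} (h : Shr Y n F) (h' : Shr Y n F') : Shr Y n (F ∪ F') :=
  fun m U hU hc => by
  obtain ⟨V, h1, h2, h3⟩ := h m U hU hc
  obtain ⟨W, g1, g2, g3⟩ := h' m V (fun i => (h1 i).1) h2
  refine ⟨W, fun i => ⟨(g1 i).1, (g1 i).2.trans (h1 i).2⟩, g2, fun y hy => hy.elim (fun hy => ?_)
    (g3 y)⟩
  exact (ncard_le_ncard (fun i hi => (g1 i).2 hi) (toFinite _)).trans (h3 y hy)

lemma Shr.of_inducing {e : K → Y} (he : IsInducing e) {F : Set Y} (hF : IsClosed F)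
    (hr : F ⊆ range e) (h : Shr K n univ) : Shr Y n F := fun m U hU hc => by
  obtain ⟨V, h1, h2, h3⟩ := h m (fun i => e ⁻¹' U i) (fun i => (hU i).preimage he.continuous)
    fun x => hc (e x)
  choose O hO1 hO2 using fun i => he.isOpen_iff.1 (h1 i).1
  refine ⟨fun i => U i ∩ (O i ∪ Fᶜ), fun i => ⟨(hU i).inter ((hO1 i).union hF.isOpen_compl),
    inter_subset_left⟩, fun y => ?_, fun y hy => ?_⟩
  · by_cases hy : y ∈ F
    · obtain ⟨x, rfl⟩ := hr hy
      obtain ⟨i, hi⟩ := h2 x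
      exact ⟨i, (h1 i).2 hi, Or.inl (by rw [← hO2] at hi; exact hi)⟩
    · obtain ⟨i, hi⟩ := hc y
      exact ⟨i, hi, Or.inr hy⟩
  · obtain ⟨x, rfl⟩ := hr hy
    refine (ncard_le_ncard (fun i hi => ?_) (toFinite _)).trans (h3 x trivial)
    rcases hi.2 with h4 | h4
    · change x ∈ V i
      rw [← hO2]
      exact h4
    · exact absurd hy h4

lemma isOpen_order {m : ℕ} {C : Fin m → Set Y} (hC : ∀ i, IsClosed (C i)) (r : ℕ) :
    IsOpen {y | {i | y ∈ C i}.ncard ≤ r} := by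
  refine isOpen_iff_mem_nhds.2 fun y hy => ?_
  have h : ∀ᶠ x in 𝓝 y, ∀ i, x ∈ C i → y ∈ C i := by
    refine eventually_all.2 fun i => ?_
    by_cases hi : y ∈ C i
    · exact Eventually.of_forall fun _ _ => hi
    · filter_upwards [(hC i).isOpen_compl.mem_nhds hi] with x hx h using absurd h hx
  filter_upwards [h] with x hx
  exact (ncard_le_ncard hx (toFinite _)).trans hy

lemma isClosed_order {m : ℕ} {O : Fin m → Set Y} (hO : ∀ i, IsOpen (O i)) (r : ℕ) :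
    IsClosed {y | {i | y ∈ O i}.ncard ≤ r} := by
  refine isOpen_compl_iff.1 (isOpen_iff_mem_nhds.2 fun y hy => ?_)
  have h : ∀ᶠ x in 𝓝 y, ∀ i, y ∈ O i → x ∈ O i := by
    refine eventually_all.2 fun i => ?_
    by_cases hi : y ∈ O i
    · filter_upwards [(hO i).mem_nhds hi] with x hx _ using hx
    · exact Eventually.of_forall fun _ h => absurd h hi
  filter_upwards [h] with x hx h'
  exact hy ((ncard_le_ncard hx (toFinite _)).trans h')

lemma Shr.of_nbhd [NormalSpace Y] {Z : Set Y} (hZ : Shr Y n Z)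
    (h : ∀ F, IsClosed F → Disjoint F Z → Shr Y n F) : Shr Y n univ := fun m U hU hc => by
  obtain ⟨V, h1, h2, h3⟩ := hZ m U hU hc
  obtain ⟨v, v1, v2, v3⟩ := exists_iUnion_eq_closure_subset (fun i => (h1 i).1)
    (fun _ => toFinite _) (iUnion_eq_univ_iff.2 h2)
  have hN := isOpen_order (C := fun i => closure (v i)) (fun _ => isClosed_closure) (n + 1)
  obtain ⟨W, g1, g2, g3⟩ := h _ hN.isClosed_compl (disjoint_left.2 fun y hy hz => hy
    ((ncard_le_ncard (fun i hi => v3 i hi) (toFinite _)).trans (h3 y hz))) m v v2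
    (iUnion_eq_univ_iff.1 v1)
  refine ⟨W, fun i => ⟨(g1 i).1, (g1 i).2.trans (subset_closure.trans ((v3 i).trans (h1 i).2))⟩,
    g2, fun y _ => ?_⟩
  by_cases hy : y ∈ {y | {i | y ∈ closure (v i)}.ncard ≤ n + 1}
  · exact (ncard_le_ncard (t := {i | y ∈ closure (v i)})
      (fun i hi => subset_closure (s := v i) ((g1 i).2 hi)) (toFinite _)).trans hy
  · exact g3 y hy

lemma Shr.iUnion {ι : Type} {F : ι → Set Y} (hc : ∀ a, IsClosed (F a)) (hl : LocallyFinite F)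
    (hd : Pairwise fun a b => Disjoint (F a) (F b)) (h : ∀ a, Shr Y n (F a)) :
    Shr Y n (⋃ a, F a) := fun m U hU hcov => by
  choose V h1 h2 h3 using fun a => h a m U hU hcov
  refine ⟨fun i => U i \ ⋃ a, F a \ V a i, fun i => ⟨(hU i).sdiff
    ((hl.subset fun a => sdiff_subset).isClosed_iUnion fun a => (hc a).sdiff (h1 a i).1),
    sdiff_subset⟩, fun y => ?_, fun y hy => ?_⟩
  · by_cases hy : ∃ a, y ∈ F a
    · obtain ⟨a, ha⟩ := hy
      obtain ⟨i, hi⟩ := h2 a y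
      refine ⟨i, (h1 a i).2 hi, fun hh => ?_⟩
      obtain ⟨b, hb, hb'⟩ := mem_iUnion.1 hh
      by_cases hab : a = b
      · exact hb' (hab ▸ hi)
      · exact disjoint_left.1 (hd hab) ha hb
    · obtain ⟨i, hi⟩ := hcov y
      refine ⟨i, hi, fun hh => ?_⟩
      obtain ⟨b, hb, -⟩ := mem_iUnion.1 hh
      exact hy ⟨b, hb⟩
  · obtain ⟨a, ha⟩ := mem_iUnion.1 hy
    refine (ncard_le_ncard (fun i hi => ?_) (toFinite _)).trans (h3 a y ha)
    by_contra hv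
    exact hi.2 (mem_iUnion.2 ⟨a, ha, hv⟩)

lemma shr_compact {C : Set ℝ} (hC : IsCompact C) : Shr ℝ 1 C := fun m U hU hc => by
  obtain ⟨δ, hδ, hleb⟩ := lebesgue_number_lemma_of_metric hC hU
    (fun x _ => mem_iUnion.2 (hc x))
  let J : ℤ → Set ℝ := fun r => Ioo ((r - 1) * (δ / 2)) ((r + 1) * (δ / 2))
  have h1 : ∀ r : ℤ, ∃ i, (J r ∩ C).Nonempty → J r ⊆ U i := fun r => by
    by_cases h : (J r ∩ C).Nonempty
    · obtain ⟨x, hx, hx'⟩ := h
      obtain ⟨i, hi⟩ := hleb x hx'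
      refine ⟨i, fun _ y hy => hi ?_⟩
      rw [Metric.mem_ball, Real.dist_eq, abs_lt]
      constructor <;> linarith [hx.1, hx.2, hy.1, hy.2]
    · exact ⟨(hc 0).choose, fun h' => absurd h' h⟩
  choose ι hι using h1
  have hδ' : 0 < δ / 2 := by positivity
  have h2 : ∀ t r, t ∈ J r ↔ (r : ℝ) - 1 < t / (δ / 2) ∧ t / (δ / 2) < r + 1 := fun t r => by
    rw [lt_div_iff₀ hδ', div_lt_iff₀ hδ']
    rfl
  refine ⟨fun i => U i ∩ (Cᶜ ∪ ⋃ r, ⋃ (_ : ι r = i), J r), fun i => ⟨(hU i).inter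
    (hC.isClosed.isOpen_compl.union (isOpen_iUnion fun r => isOpen_iUnion fun _ => isOpen_Ioo)),
    inter_subset_left⟩, fun t => ?_, fun t ht => ?_⟩
  · by_cases ht : t ∈ C
    · have h3 : t ∈ J ⌊t / (δ / 2)⌋ :=
        (h2 _ _).2 ⟨by linarith [Int.floor_le (t / (δ / 2))], Int.lt_floor_add_one _⟩
      exact ⟨ι _, hι _ ⟨t, h3, ht⟩ h3, Or.inr (mem_iUnion₂.2 ⟨_, rfl, h3⟩)⟩
    · obtain ⟨i, hi⟩ := hc t
      exact ⟨i, hi, Or.inl ht⟩
  · refine le_trans (ncard_le_ncard (t := {ι ⌊t / (δ / 2)⌋, ι (⌊t / (δ / 2)⌋ + 1)})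
      (fun i hi => ?_) (toFinite _)) ((ncard_insert_le _ _).trans (by rw [ncard_singleton]))
    rcases hi.2 with h | h
    · exact absurd ht h
    obtain ⟨r, rfl, hr⟩ := mem_iUnion₂.1 h
    obtain ⟨h3, h4⟩ := (h2 _ _).1 hr
    have h5 : ⌊t / (δ / 2)⌋ < r + 1 := by rw [Int.floor_lt]; push_cast; exact h4
    have h6 : r - 1 ≤ ⌊t / (δ / 2)⌋ := by rw [Int.le_floor]; push_cast; exact h3.le
    rcases (by omega : r = ⌊t / (δ / 2)⌋ ∨ r = ⌊t / (δ / 2)⌋ + 1) with h | h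
    · rw [← h]; exact Or.inl rfl
    · rw [← h]; exact Or.inr rfl

lemma shr_real : Shr ℝ 1 univ := by
  have key : ∀ a : ℝ, Shr ℝ 1 (⋃ j : ℤ, Icc (2 * (j : ℝ) + a) (2 * j + a + 1)) := fun a => by
    refine Shr.iUnion (fun _ => isClosed_Icc) (locallyFinite_Icc_of_tendsto ?_ ?_) ?_
      fun _ => shr_compact isCompact_Icc
    · exact tendsto_atTop_add_const_right _ _
        (tendsto_intCast_atTop_atTop.const_mul_atTop two_pos)
    · exact tendsto_atBot_add_const_right _ _ (tendsto_atBot_add_const_right _ _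
        (tendsto_intCast_atBot_iff.2 tendsto_id |>.const_mul_atBot two_pos))
    · intro i j hij
      refine disjoint_left.2 fun t h1 h2 => hij ?_
      have h3 : (2 * i : ℝ) < 2 * j + 2 := by linarith [h1.1, h2.2]
      have h4 : (2 * j : ℝ) < 2 * i + 2 := by linarith [h1.2, h2.1]
      have h5 : 2 * i < 2 * j + 2 := by exact_mod_cast h3
      have h6 : 2 * j < 2 * i + 2 := by exact_mod_cast h4
      omega
  refine ((key 0).union (key 1)).mono (fun t _ => ?_) le_rfl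
  have h1 := Int.floor_le (t / 2)
  have h2 := Int.lt_floor_add_one (t / 2)
  rcases le_total t (2 * ⌊t / 2⌋ + 1) with h | h
  · exact Or.inl (mem_iUnion.2 ⟨⌊t / 2⌋, by linarith, by linarith⟩)
  · exact Or.inr (mem_iUnion.2 ⟨⌊t / 2⌋, by linarith, by linarith⟩)

end Pool.Agent.Lib.MP_975a4b_lc
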