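import Pool.Agent.Lib.MP_975a4b_lc.Un.Shr

/-! A universal compact metrizable space of dimension at most `n`. -/

set_option autoImplicit false

namespace Pool.Agent.Lib.MP_975a4b_lc

open Filter Topology Set

/-- The ambient space. -/
def Amb : Type := ℕ → Cube

instance : TopologicalSpace Amb := inferInstanceAs (TopologicalSpace (ℕ → Cube))
instance : CompactSpace Amb := inferInstanceAs (CompactSpace (ℕ → Cube))
instance : TopologicalSpace.MetrizableSpace Amb :=
  inferInstanceAs (TopologicalSpace.MetrizableSpace (ℕ → Cube))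
noncomputable instance : MetricSpace Amb := TopologicalSpace.metrizableSpaceMetric Amb

lemma cont_amb (j : ℕ) : Continuous fun z : Amb => z j := continuous_apply (A := fun _ => Cube) j

lemma cont_amb' (j i : ℕ) : Continuous fun z : Amb => z j i := (continuous_apply i).comp (cont_amb j)

lemma cont_to_amb {Y : Type} [TopologicalSpace Y] {f : Y → Amb}
    (h : ∀ j, Continuous fun y => f y j) : Continuous f :=
  continuous_pi (X := Y) (A := fun _ => Cube) h

/-- Truncation above level `k`. -/
def tr (k : ℕ) (z : Amb) : Amb := fun j => if j ≤ k then z j else 0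

lemma continuous_tr (k : ℕ) : Continuous (tr k) := cont_to_amb fun j => by
  unfold tr
  split_ifs
  · exact cont_amb j
  · exact continuous_const

lemma tr_close {ε : ℝ} (hε : 0 < ε) : ∃ k₀, ∀ k ≥ k₀, ∀ z, dist (tr k z) z < ε := by
  let D : ℕ → Set (Amb × Amb) := fun k => {p | (∀ j ≤ k, p.1 j = p.2 j) ∧ ε ≤ dist p.1 p.2}
  have hD : ∀ k, IsClosed (D k) := fun k => by
    refine IsClosed.inter (s₁ := {p : Amb × Amb | ∀ j ≤ k, p.1 j = p.2 j}) ?_
      (isClosed_le continuous_const continuous_dist)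
    simp only [ofPred_forall]
    exact isClosed_iInter fun j => isClosed_iInter fun _ =>
      isClosed_eq ((cont_amb j).comp continuous_fst) ((cont_amb j).comp continuous_snd)
  by_contra h
  push Not at h
  obtain ⟨p, hp⟩ := IsCompact.nonempty_iInter_of_sequence_nonempty_isCompact_isClosed D
    (fun k p hp => ⟨fun j hj => hp.1 j (by omega), hp.2⟩)
    (fun k => by
      obtain ⟨k', hk, z, hz⟩ := h k
      exact ⟨(tr k' z, z), fun j hj => if_pos (by omega), hz⟩) (hD 0).isCompact hD
  have h1 : p.1 = p.2 := funext fun j => (mem_iInter.1 hp j).1 j le_rfl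
  have h2 := (mem_iInter.1 hp 0).2
  rw [h1, dist_self] at h2
  linarith

lemma exists_net (k : ℕ) : ∃ (m : ℕ) (c : Fin m → Amb),
    ∀ z, ∃ i, dist z (c i) < 1 / ((k : ℝ) + 1) := by
  obtain ⟨t, -, ht, hc⟩ := finite_cover_balls_of_compact (isCompact_univ (X := Amb))
    (show 0 < 1 / ((k : ℝ) + 1) by positivity)
  obtain ⟨m, c, -, hm⟩ := ht.fin_param
  refine ⟨m, c, fun z => ?_⟩
  obtain ⟨x, hx, hz⟩ := mem_iUnion₂.1 (hc (mem_univ z))
  obtain ⟨i, rfl⟩ : x ∈ range c := hm ▸ hx
  exact ⟨i, hz⟩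

/-- Number of centres at level `k`. -/
noncomputable def mm (k : ℕ) : ℕ := (exists_net k).choose

/-- Centres at level `k`. -/
noncomputable def cc (k : ℕ) : Fin (mm k) → Amb := (exists_net k).choose_spec.choose

lemma cc_spec (k : ℕ) (z : Amb) : ∃ i, dist z (cc k i) < 1 / ((k : ℝ) + 1) :=
  (exists_net k).choose_spec.choose_spec z

/-- The condition at level `k`. -/
def Cond (n k : ℕ) (w : Amb) (u : Cube) : Prop :=
  (∃ i : Fin (mm k), u i = 1) ∧ {i : Fin (mm k) | u i ≠ 0}.ncard ≤ n + 1 ∧
    ∀ i : Fin (mm k), u i = 0 ∨ dist w (cc k i) ≤ 1 / ((k : ℝ) + 1)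

/-- The universal space. -/
def ZZ (n : ℕ) : Set Amb := {z | ∀ k, Cond n k (tr k z) (z (k + 1))}

lemma isClosed_ZZ (n : ℕ) : IsClosed (ZZ n) := by
  unfold ZZ Cond
  simp only [ofPred_forall, ofPred_and, ofPred_exists, ofPred_or]
  refine isClosed_iInter fun k => (isClosed_iUnion_of_finite fun i =>
    isClosed_eq (cont_amb' _ _) continuous_const).inter (IsClosed.inter ?_ (isClosed_iInter fun i =>
      (isClosed_eq (cont_amb' _ _) continuous_const).union
        (isClosed_le ((continuous_tr k).dist continuous_const) continuous_const)))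
  exact isClosed_order (O := fun i : Fin (mm k) => {z : Amb | z (k + 1) i ≠ 0})
    (fun i => isOpen_ne_fun (cont_amb' _ _) continuous_const) (n + 1)

theorem dim_of_subset {n : ℕ} {X : Set Amb} (hX : IsClosed X) (h : X ⊆ ZZ n) : CovDimLE X n := by
  intro 𝓤 _ ho hc
  have : CompactSpace X := isCompact_iff_compactSpace.1 hX.isCompact
  obtain ⟨δ, hδ, hleb⟩ := lebesgue_number_lemma_of_metric_sUnion (isCompact_univ (X := X)) ho
    (fun x _ => hc x)
  obtain ⟨k₀, hk₀⟩ := tr_close (show 0 < δ / 4 by positivity)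
  obtain ⟨k₁, hk₁⟩ := exists_nat_one_div_lt (show 0 < δ / 4 by positivity)
  let k := max k₀ k₁
  have hk : 1 / ((k : ℝ) + 1) < δ / 4 := lt_of_le_of_lt (Nat.one_div_le_one_div (le_max_right _ _)) hk₁
  let V : Fin (mm k) → Set X := fun i => {x | x.1 (k + 1) i ≠ 0}
  have hV : ∀ i, ∀ x ∈ V i, dist x.1 (cc k i) < δ / 2 := fun i x hx => by
    have h1 := ((h x.2 k).2.2 i).resolve_left hx
    have h2 := hk₀ k (le_max_left _ _) x.1
    have h3 := dist_triangle_left x.1 (cc k i) (tr k x.1)
    linarith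
  refine ⟨V '' {i | (V i).Nonempty}, toFinite _, ?_, fun x => ?_, fun x => ?_⟩
  · rintro _ ⟨i, ⟨x, hx⟩, rfl⟩
    obtain ⟨U, hU, hU'⟩ := hleb x trivial
    refine ⟨isOpen_ne_fun ((cont_amb' _ _).comp continuous_subtype_val) continuous_const, U, hU,
      fun y hy => hU' ?_⟩
    have h1 := dist_triangle_right y.1 x.1 (cc k i)
    have h2 := hV i x hx
    have h3 := hV i y hy
    change dist y.1 x.1 < δ
    linarith
  · obtain ⟨i, hi⟩ := (h x.2 k).1
    have hx : x ∈ V i := fun h0 => zero_ne_one (h0.symm.trans hi)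
    exact ⟨_, ⟨i, ⟨x, hx⟩, rfl⟩, hx⟩
  · refine le_trans (ncard_le_ncard (t := V '' {i | x ∈ V i}) ?_ (toFinite _))
      ((ncard_image_le (toFinite _)).trans (h x.2 k).2.1)
    rintro _ ⟨⟨i, -, rfl⟩, hx⟩
    exact ⟨i, hx, rfl⟩

variable {Y : Type} [TopologicalSpace Y] [NormalSpace Y] {n : ℕ}

lemma exists_step (hY : Shr Y n univ) (k : ℕ) (H : C(Y, Amb)) :
    ∃ f : C(Y, Cube), ∀ y, Cond n k (H y) (f y) := by
  obtain ⟨V, h1, h2, h3⟩ := hY (mm k) (fun i => {y | dist (H y) (cc k i) < 1 / ((k : ℝ) + 1)})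
    (fun i => isOpen_lt (H.continuous.dist continuous_const) continuous_const)
    fun y => cc_spec k (H y)
  obtain ⟨f, hf⟩ := BumpCovering.exists_isSubordinate_of_locallyFinite isClosed_univ V
    (fun i => (h1 i).1) (locallyFinite_of_finite V) fun y _ => mem_iUnion.2 (h2 y)
  let g : Y → Cube := fun y i =>
    if h : i < mm k then ⟨f ⟨i, h⟩ y, f.nonneg _ _, f.le_one _ _⟩ else 0
  have hg : ∀ y (i : Fin (mm k)), (g y i : ℝ) = f i y := fun y i => by simp [g]
  have hV : ∀ y (i : Fin (mm k)), g y i ≠ 0 → y ∈ V i := fun y i hi =>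
    hf i (subset_tsupport _ fun h0 => hi (Subtype.ext ((hg y i).trans h0)))
  refine ⟨⟨g, continuous_pi fun i => ?_⟩, fun y => ⟨?_, ?_, fun i => ?_⟩⟩
  · unfold g
    split_ifs with h
    · exact (f ⟨i, h⟩).continuous.subtype_mk _
    · exact continuous_const
  · obtain ⟨i, hi⟩ := f.eventuallyEq_one' y trivial
    exact ⟨i, Subtype.ext ((hg y i).trans hi.eq_of_nhds)⟩
  · exact (ncard_le_ncard (fun i hi => hV y i hi) (toFinite _)).trans (h3 y trivial)
  · by_cases hi : g y i = 0
    · exact Or.inl hi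
    · exact Or.inr (le_of_lt ((h1 i).2 (hV y i hi)))

theorem exists_lift (hY : Shr Y n univ) {g : Y → Cube} (hg : Continuous g) :
    ∃ G : Y → Amb, Continuous G ∧ ∀ y, G y 0 = g y ∧ G y ∈ ZZ n := by
  choose st hst using exists_step hY
  let H : ℕ → C(Y, Amb) := fun k => Nat.rec
    ⟨fun y j => if j = 0 then g y else 0, cont_to_amb fun j => by
      split_ifs
      · exact hg
      · exact continuous_const⟩
    (fun k Hk => ⟨fun y j => if j = k + 1 then st k Hk y else Hk y j, cont_to_amb fun j => by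
      split_ifs
      · exact (st k Hk).continuous
      · exact (cont_amb j).comp Hk.continuous⟩) k
  have h0 : ∀ y j, H 0 y j = if j = 0 then g y else 0 := fun _ _ => rfl
  have h1 : ∀ k y j, H (k + 1) y j = if j = k + 1 then st k (H k) y else H k y j := fun _ _ _ => rfl
  have h2 : ∀ k y, tr k (fun j => H j y j) = H k y := fun k y => by
    induction k with
    | zero =>
      funext j
      unfold tr
      rw [h0 y j]
      rcases Nat.eq_zero_or_pos j with rfl | hj
      · simp [h0]
      · rw [if_neg (by omega), if_neg (by omega)]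
    | succ k ih =>
      funext j
      rw [h1 k y j, ← ih]
      unfold tr
      by_cases hj : j = k + 1
      · subst hj
        rw [if_pos le_rfl, if_pos rfl]
        exact (h1 k y (k + 1)).trans (if_pos rfl)
      · rw [if_neg hj]
        by_cases hj' : j ≤ k
        · rw [if_pos hj', if_pos (by omega)]
        · rw [if_neg hj', if_neg (by omega)]
  refine ⟨fun y j => H j y j, cont_to_amb fun j => (cont_amb j).comp (H j).continuous,
    fun y => ⟨by simp [h0], fun k => ?_⟩⟩
  rw [h2]
  change Cond n k (H k y) (H (k + 1) y (k + 1))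
  rw [h1, if_pos rfl]
  exact hst k (H k) y

end Pool.Agent.Lib.MP_975a4b_lc
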